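import Pool.Agent.Helper88.QT.St4

/-!
# Project QT (MP_d112a4_gt), module WGT: weights of the classes
-/

set_option autoImplicit false

namespace Pool.Agent.Helper42.QT

open MeasureTheory Matrix Set Topology Filter
open scoped ENNReal ComplexConjugate
open Pool.Agent.Helper88.QT Pool.Agent.Helper85.QT Pool.Agent.Helper86.QA
open Pool.Agent.Helper35.PM (hs len classes num ent tl Facts IsQF)

private lemma om_nonneg (lam : ℂ) (m : ℝ) (a b : ℂ) : 0 ≤ Pool.Agent.Helper88.QT.om lam m a b := by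
  unfold Pool.Agent.Helper88.QT.om
  apply mul_nonneg
  · exact le_min zero_le_one (by positivity)
  · positivity

private lemma Om_nonneg {Γ : Type} [Group Γ] (ρ : Γ →* SL) (α : Γ) (lam : ℂ) (m : ℝ) (a b : ℂ)
    (u u' : ℝ) : 0 ≤ Om ρ α lam m a b u u' := by
  unfold Om
  exact finsum_nonneg fun i => finsum_nonneg fun _ => om_nonneg _ _ _ _

private lemma gradLE_mono {Γ : Type} [Group Γ] (f : ℂ → Γ →* SL) (c : ConjClasses Γ) (x y : ℝ)
    (h : GradLE f c x) (hxy : x ≤ y) : GradLE f c y := by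
  obtain ⟨Λ, h1, h2, h3⟩ := h
  exact ⟨Λ, h1, h2, h3.trans hxy⟩

private lemma not_conj {Γ : Type} [Group Γ] (α γ : Γ) (x : ConjClasses Γ)
    (hγ : ConjClasses.mk γ = x) (hx : ∀ n : ℤ, x ≠ ConjClasses.mk (α ^ n)) :
    ∀ (δ : Γ) (n : ℤ), γ ≠ δ * α ^ n * δ⁻¹ := by
  intro δ n h
  apply hx n
  rw [← hγ, ConjClasses.mk_eq_mk_iff_isConj]
  exact (isConj_iff.2 ⟨δ, h.symm⟩).symm

theorem hWGT (hHS2 : Pool.Agent.Helper35.PM.St_HS2) (hACT : Pool.Agent.Helper86.QA.StACT)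
    (hCHI : Pool.Agent.Helper86.QA.StCHI) (hFDM : Pool.Agent.Helper88.QT.StFDM)
    (hGPM : Pool.Agent.Helper88.QT.StGPM) (hPFM : Pool.Agent.Helper88.QT.StPFM)
    (hEXC : Pool.Agent.Helper88.QT.StEXC) (hAXR : Pool.Agent.Helper88.QT.StAXR)
    (hSMR : Pool.Agent.Helper88.QT.StSMR) (hGRB : Pool.Agent.Helper88.QT.StGRB) :
    Pool.Agent.Helper88.QT.StWGT := by
  intro C3 hC3
  obtain ⟨C1, hC11, hG⟩ := hGRB C3 hC3
  obtain ⟨C2, hC21, hE⟩ := hEXC
  refine ⟨max C1 C2, hC11.trans (le_max_left _ _), ?_⟩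
  intro Γ _ f α m a0 r A B lam M G φ μ μ0 bb hP hhol hfacts hQF hlam hm hDT hμ0 hB hCm s σ hσ1
    hσs hs2 hent hCs
  have kd : KD r A B := hP.an.kd
  obtain ⟨Cc, hCc⟩ := hP.cj
  obtain ⟨htl, hsum, -⟩ := hSMR Γ (f 0) r Cc hQF hCc
  have hsumσ := hsum σ (by linarith) hent
  have hre : 0 < lam.re := hP.an.re
  have hlam0 : lam ≠ 0 := by
    intro h
    rw [h] at hre
    simp at hre
  have hm1 : 1 ≤ m := hP.an.m1
  have hmpos : 0 < m := by linarith
  have hbb1 : 1 ≤ bb := hB.1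
  obtain ⟨D, hD1, hD⟩ := hAXR Γ r A B α lam M G m φ C3 hP.an hlam
  have h0 : (0 : ℂ) ∈ Metric.ball (0 : ℂ) 1 := by simp
  have htf : ∀ γ : Γ, (∀ (δ : Γ) (n : ℤ), γ ≠ δ * α ^ n * δ⁻¹) →
      ∀ z ∈ Metric.ball (0 : ℂ) 1, 0 < tl (f z γ) := by
    intro γ hγ z hz
    have h1 : 0 ≤ tl (f z γ) := (hHS2.2.2.1 (f z γ)).1
    refine lt_of_le_of_ne h1 ?_
    intro h2
    obtain ⟨n, hn, hn2⟩ := ((hfacts z hz).2.2.2.2.2.1 γ).1 h2.symm
    have h3 := kd.tf γ n hn hn2
    exact hγ 1 0 (by rw [h3]; simp)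
  -- choice of the representatives
  have key : ∀ x : ConjClasses Γ, (∀ n : ℤ, x ≠ ConjClasses.mk (α ^ n)) →
      ∃ (δ : Γ) (a b : ℂ) (u : ℝ),
      (r (δ * Quotient.out x * δ⁻¹)) 1 0 * a + (r (δ * Quotient.out x * δ⁻¹)) 1 1 ≠ 0 ∧
      mb (r (δ * Quotient.out x * δ⁻¹)) a = a ∧
      (r (δ * Quotient.out x * δ⁻¹)) 1 0 * b + (r (δ * Quotient.out x * δ⁻¹)) 1 1 ≠ 0 ∧
      mb (r (δ * Quotient.out x * δ⁻¹)) b = b ∧
      1 < ‖(r (δ * Quotient.out x * δ⁻¹)) 1 0 * a + (r (δ * Quotient.out x * δ⁻¹)) 1 1‖ ∧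
      (∀ v : ℝ, ga (r (δ * Quotient.out x * δ⁻¹)) (gp a b v) =
        gp a b (v + tl (r (Quotient.out x)))) ∧
      Adm r A B α lam a b u (u + tl (r (Quotient.out x))) ∧ ch oo (gp a b u) ≤ D := by
    intro x hx
    have h1 : ConjClasses.mk (Quotient.out x) = x := Quotient.out_eq x
    have h2 := not_conj α (Quotient.out x) x h1 hx
    have h3 : 0 < tl (r (Quotient.out x)) := by
      rw [htl]
      exact htf _ h2 0 h0
    exact hD (Quotient.out x) h3 h2
  haveI : Nonempty Γ := ⟨1⟩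
  choose! δ a b u hk using key
  obtain ⟨γ', hγ'⟩ : ∃ γ' : ConjClasses Γ → Γ, γ' = fun x => δ x * Quotient.out x * (δ x)⁻¹ :=
    ⟨_, rfl⟩
  have hγx : ∀ x, δ x * Quotient.out x * (δ x)⁻¹ = γ' x := fun x => by rw [hγ']
  simp only [hγx] at hk
  have hmk : ∀ x, ConjClasses.mk (γ' x) = x := by
    intro x
    have h1 : ConjClasses.mk (Quotient.out x) = x := Quotient.out_eq x
    conv_rhs => rw [← h1]
    rw [ConjClasses.mk_eq_mk_iff_isConj, ← hγx]
    exact (isConj_iff.2 ⟨δ x, rfl⟩).symm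
  have hlen : ∀ x : ConjClasses Γ, len (f 0) x = tl (r (Quotient.out x)) := by
    intro x
    rw [htl]
    rfl
  have hC1m : C1 * bb ≤ m := by
    refine le_trans ?_ hCm
    exact mul_le_mul_of_nonneg_right (le_max_left _ _) (by linarith)
  refine ⟨fun x => Om r α lam m (a x) (b x) (u x) (u x + tl (r (Quotient.out x))), ?_⟩
  -- the family of ports
  obtain ⟨k, ξ, hk1, hk2, hk3⟩ := hPFM A B lam bb hlam0 (by
    intro k ξ h1 h2
    obtain ⟨hf1, -⟩ := hFDM lam hlam0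
    have hinj : Function.Injective ξ := by
      intro y y' hyy
      by_contra hne
      have h3 := h2 y y' hne 0
      have h4 := (hf1 (ξ y) (ξ y) (h1 y).2 (h1 y).2).2.2.1
      rw [← hyy] at h3
      simp only [Int.cast_zero, zero_mul, Complex.exp_zero, one_mul] at h3
      linarith
    have h5 := hB.2 (Finset.univ.image ξ) (by
      intro η hη
      obtain ⟨y, -, rfl⟩ := Finset.mem_image.1 hη
      exact h1 y) (by
      intro η hη ζ hζ hne n
      obtain ⟨y, -, rfl⟩ := Finset.mem_image.1 hη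
      obtain ⟨y', -, rfl⟩ := Finset.mem_image.1 hζ
      have h6 : y' ≠ y := fun h => hne (by rw [h])
      have h7 := h2 y' y h6 n
      have h8 := (hf1 (Complex.exp (n * lam) * ξ y) (ξ y')
        (mul_ne_zero (Complex.exp_ne_zero _) (h1 y).2) (h1 y').2).1
      rw [h8]
      exact h7)
    rw [Finset.card_image_of_injective _ hinj, Finset.card_univ, Fintype.card_fin] at h5
    exact h5)
  have hkC : C2 * (k : ℝ) ^ 2 ≤ m * (s - σ) ^ 3 := by
    refine le_trans ?_ hCs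
    have h1 : (k : ℝ) ^ 2 ≤ bb ^ 2 := pow_le_pow_left₀ (Nat.cast_nonneg k) hk1 2
    exact mul_le_mul (le_max_right _ _) h1 (by positivity) (by positivity)
  have hoo : oo ∈ up := by
    show (0 : ℝ) < oo.2
    simp [oo]
  obtain ⟨C', hC'⟩ := hE Γ r A B α lam M G m φ C3 hP.an hlam hm k ξ hk2 hk3 s σ hσ1 hσs hs2
    hsumσ hkC oo hoo D hD1
  refine ⟨C', ?_, ?_⟩
  · intro x hx
    obtain ⟨e1, e2, e3, e4, e5, e6, e7, e8⟩ := hk x hx
    have h2 := not_conj α (γ' x) x (hmk x) hx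
    have h1 := hG Γ f α m a0 r A B lam M G φ μ μ0 bb hP hhol hlam hDT hμ0 hB hC1m (γ' x) (a x)
      (b x) (u x) (tl (r (Quotient.out x))) (htf _ h2) h2 e1 e2 e3 e4 e5 e6 e7
    rw [hmk] at h1
    refine gradLE_mono _ _ _ _ h1 ?_
    rw [hlen]
    have ht0 : 0 ≤ tl (r (Quotient.out x)) := (hHS2.2.2.1 _).1
    have hO := Om_nonneg r α lam m (a x) (b x) (u x) (u x + tl (r (Quotient.out x)))
    have hle : C1 ≤ max C1 C2 := le_max_left _ _
    have h3 : C1 * bb ^ 2 / m ^ 2 * tl (r (Quotient.out x)) ≤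
        max C1 C2 * bb ^ 2 / m ^ 2 * tl (r (Quotient.out x)) := by gcongr
    have h4 : C1 * Om r α lam m (a x) (b x) (u x) (u x + tl (r (Quotient.out x))) ≤
        max C1 C2 * Om r α lam m (a x) (b x) (u x) (u x + tl (r (Quotient.out x))) := by gcongr
    exact add_le_add h3 h4
  · intro S hS
    classical
    have hinj : Set.InjOn γ' (S : Set (ConjClasses Γ)) := by
      intro x _ y _ hxy
      have := congrArg ConjClasses.mk hxy
      rwa [hmk, hmk] at this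
    have h1 := hC' (S.image γ') (fun γ => a (ConjClasses.mk γ)) (fun γ => b (ConjClasses.mk γ))
      (fun γ => u (ConjClasses.mk γ)) (fun γ => tl (r (Quotient.out (ConjClasses.mk γ)))) (by
        intro γ hγ
        obtain ⟨x, hx, rfl⟩ := Finset.mem_image.1 hγ
        obtain ⟨e1, e2, e3, e4, e5, e6, e7, e8⟩ := hk x (hS x hx)
        simp only [hmk]
        refine ⟨e7, e8, ?_⟩
        have h2 : gp (a x) (b x) (u x) ∈ up := (hGPM.1 (a x) (b x) (u x) 0 e7.ne).1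
        have h3 := (hCHI.2.1 (r (γ' x)) oo hoo _ h2).1
        rw [e6] at h3
        rw [h3]
        exact e8)
    rw [Finset.sum_image hinj] at h1
    simp only [hmk] at h1
    refine le_trans (le_of_eq ?_) h1
    apply Finset.sum_congr rfl
    intro x _
    rw [hlen]
    congr 1
    ring

end Pool.Agent.Helper42.QT
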